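import Pool.Agent.Results.MP_d84bc5_an.PackingCovering
import Pool.Agent.K4H44.PCW

/-!
# MP_d84bc5_an, Q2: `γ(ℓ₁ ⊕₂ ℓ₂) = γ*(ℓ₁ ⊕₂ ℓ₂) = 2/√3`

For every separable real inner product space `Y ≠ 0` (in particular for `Y = ℓ₂`) the simultaneous
packing and covering constants of `ℓ₁ ⊕₂ Y` are `γ = γ* = 2/√3`.  The lower bound is the one of the
starting file `PackingCovering`; new is the construction of a 2-separated subgroup.

As there, generators are added one after the other; a new generator is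
`g = (x.fst + t e_k, x.snd + b)` with a new coordinate vector `e_k`, `t ≥ 1` and
`t² + ‖b‖² = 4/3`, where `x` is a point at distance more than `2/√3` from the group.  Two further
properties are preserved.  (I) For `z ≠ 0` in the group `‖z.fst‖ ≥ 1`, and `‖z.fst‖ ≥ 2/√3` or
`‖z.snd‖ ≤ √3`.  (II) Among three elements `u, v, w` of the group there is always one, say `w`, with
`‖u.fst - w.fst‖ + ‖v.fst - w.fst‖ ≥ 2 + ‖u.fst - v.fst‖`.  By (II), if two elements `p, q` are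
closer to `x` in the first coordinate than (roughly) `2/√3` together, all others are so far away
that `t = ‖x.fst - p.fst‖ + ‖x.fst - q.fst‖` keeps them at distance two, and a suitable `b` of norm
`√(4/3 - t²)` exists by (I) and the intermediate value theorem, see `Pool.Agent.K4H44.PCW`.
-/

open WithLp Filter Topology
open Pool.Agent.Results.MP_d84bc5_an.PackingCovering

namespace Pool.Agent.Results.MP_d84bc5_an.HilbertSummand

/-- One of three points is at distance at least one from the other two, as seen from the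
difference of the sum of the distances to them and their distance. -/
def Tri (u v w : L1) : Prop :=
  2 + ‖u - v‖ ≤ ‖u - w‖ + ‖v - w‖ ∨ 2 + ‖u - w‖ ≤ ‖u - v‖ + ‖v - w‖ ∨
    2 + ‖v - w‖ ≤ ‖u - v‖ + ‖u - w‖

section

variable {Y : Type*} [NormedAddCommGroup Y]

/-- The invariant of the construction. -/
def Inv (G : AddSubgroup (WithLp 2 (L1 × Y))) : Prop :=
  (∀ g ∈ G, g ≠ 0 → 2 ≤ ‖g‖ ∧ 1 ≤ ‖g.fst‖ ∧ (2 / √3 ≤ ‖g.fst‖ ∨ ‖g.snd‖ ^ 2 ≤ 3)) ∧
  ∀ u ∈ G, ∀ v ∈ G, ∀ w ∈ G, u ≠ v → u ≠ w → v ≠ w → Tri u.fst v.fst w.fst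

/-- The norm in `ℓ₁` splits off a coordinate. -/
lemma norm_split (b : L1) (k : ℕ) : ‖b‖ = ‖b - lp.single 1 k (b k)‖ + |b k| := by
  rw [norm_sub_single]; simp

lemma ints (a b c : ℤ) (h : ¬ (a = b ∧ b = c)) :
    2 + |a - b| ≤ |a - c| + |b - c| ∨ 2 + |a - c| ≤ |a - b| + |b - c| ∨
      2 + |b - c| ≤ |a - b| + |a - c| := by
  rcases abs_cases (a - b) with h1 | h1 <;> rcases abs_cases (a - c) with h2 | h2 <;>
    rcases abs_cases (b - c) with h3 | h3 <;> omega

/-- The property (II) for points with different new coordinates. -/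
lemma tri_of_coord (u v w : L1) (k : ℕ) (t : ℝ) (ht : 1 ≤ t) (a b c : ℤ)
    (hu : u k = a * t) (hv : v k = b * t) (hw : w k = c * t) (h : ¬ (a = b ∧ b = c)) :
    Tri u v w := by
  have e : ∀ (x y : L1) (i j : ℤ), x k = i * t → y k = j * t →
      ‖x - y‖ = ‖(x - lp.single 1 k (x k)) - (y - lp.single 1 k (y k))‖ + |((i - j : ℤ) : ℝ)| * t := by
    intro x y i j hx hy
    have h1 := norm_split (x - y) k
    have h2 : (x - y) k = ((i - j : ℤ) : ℝ) * t := by
      rw [lp.coeFn_sub, Pi.sub_apply, hx, hy]; push_cast; ring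
    have h3 : x - y - lp.single 1 k ((x - y) k) =
        (x - lp.single 1 k (x k)) - (y - lp.single 1 k (y k)) := by
      have : (lp.single 1 k ((x - y) k) : L1) = lp.single 1 k (x k) - lp.single 1 k (y k) := by
        rw [lp.coeFn_sub, Pi.sub_apply, ← lp.single_sub]
      rw [this]; abel
    rw [h3, h2, abs_mul, abs_of_nonneg (by linarith : (0:ℝ) ≤ t)] at h1
    exact h1
  set U := u - lp.single 1 k (u k)
  set V := v - lp.single 1 k (v k)
  set W := w - lp.single 1 k (w k)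
  have e1 := e u v a b hu hv
  have e2 := e u w a c hu hw
  have e3 := e v w b c hv hw
  have t1 : ‖U - V‖ ≤ ‖U - W‖ + ‖V - W‖ := by
    have := norm_sub_le (U - W) (V - W)
    rwa [sub_sub_sub_cancel_right] at this
  have t2 : ‖U - W‖ ≤ ‖U - V‖ + ‖V - W‖ := by
    have := norm_add_le (U - V) (V - W)
    rwa [sub_add_sub_cancel] at this
  have t3 : ‖V - W‖ ≤ ‖U - V‖ + ‖U - W‖ := by
    have := norm_sub_le (U - W) (U - V)
    rw [sub_sub_sub_cancel_left] at this
    linarith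
  have cast : ∀ x y z : ℤ, 2 + |x| ≤ |y| + |z| →
      2 + |(x : ℝ)| * t ≤ |(y : ℝ)| * t + |(z : ℝ)| * t := by
    intro x y z hh
    have h5 : (2 : ℝ) + |(x : ℝ)| ≤ |(y : ℝ)| + |(z : ℝ)| := by exact_mod_cast hh
    nlinarith
  unfold Tri
  rw [e1, e2, e3]
  rcases ints a b c h with h5 | h5 | h5
  · left; have := cast _ _ _ h5; linarith
  · right; left; have := cast _ _ _ h5; linarith
  · right; right; have := cast _ _ _ h5; linarith

lemma rho_le : (2 / √3 : ℝ) ≤ 7 / 6 := by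
  have h1 := rho_sq
  have h2 := one_le_rho
  nlinarith

/-- Adding one generator. -/
lemma add_gen' (k : ℕ) (G : AddSubgroup (WithLp 2 (L1 × Y))) (hG : G ≤ Vk Y k) (hI : Inv G)
    (t : ℝ) (ht : 1 ≤ t) (a : L1) (ha : ∀ i, k ≤ i → a i = 0) (h : Y)
    (hg : ∀ y ∈ G, 2 ≤ ‖toLp 2 (a + lp.single 1 k t, h) - y‖ ∧
      1 ≤ ‖(toLp 2 (a + lp.single 1 k t, h) - y).fst‖ ∧
      (2 / √3 ≤ ‖(toLp 2 (a + lp.single 1 k t, h) - y).fst‖ ∨
        ‖(toLp 2 (a + lp.single 1 k t, h) - y).snd‖ ^ 2 ≤ 3)) :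
    Inv (G ⊔ AddSubgroup.zmultiples (toLp 2 (a + lp.single 1 k t, h))) ∧
    G ⊔ AddSubgroup.zmultiples (toLp 2 (a + lp.single 1 k t, h)) ≤ Vk Y (k + 1) := by
  set g₁ : WithLp 2 (L1 × Y) := toLp 2 (a + lp.single 1 k t, h) with hg₁
  have hg₁V : g₁ ∈ Vk Y (k + 1) := by
    intro i hi
    have : i ≠ k := by omega
    simp [hg₁, ha i (by omega), Pi.single_eq_of_ne this]
  have hg₁k : g₁.fst k = t := by simp [hg₁, ha k le_rfl]
  have hcoord : ∀ y ∈ G, ∀ m : ℤ, (y + m • g₁).fst k = m * t := by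
    intro y hy m
    have h1 : y.fst k = 0 := hG hy k le_rfl
    have h2 : (m • g₁).fst = m • g₁.fst := rfl
    rw [WithLp.add_fst, h2, lp.coeFn_add, Pi.add_apply, h1, ← Int.cast_smul_eq_zsmul ℝ,
      lp.coeFn_smul, Pi.smul_apply, hg₁k, smul_eq_mul, zero_add]
  refine ⟨⟨?_, ?_⟩, sup_le (hG.trans (Vk_mono (by omega))) (by
    rw [AddSubgroup.zmultiples_le]; exact hg₁V)⟩
  · intro g hgm hg0
    obtain ⟨y, hy, w, hw, rfl⟩ := AddSubgroup.mem_sup.1 hgm
    obtain ⟨m, rfl⟩ := AddSubgroup.mem_zmultiples_iff.1 hw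
    by_cases hm0 : m = 0
    · subst hm0
      simp only [zero_smul, add_zero] at hg0 ⊢
      exact hI.1 y hy hg0
    by_cases hm1 : m = 1
    · subst hm1
      have := hg (-y) (neg_mem hy)
      rw [sub_neg_eq_add] at this
      simpa [add_comm] using this
    by_cases hm2 : m = -1
    · subst hm2
      have := hg y hy
      have e1 : y + (-1 : ℤ) • g₁ = -(g₁ - y) := by simp; abel
      rw [e1, norm_neg, WithLp.neg_fst, norm_neg, WithLp.neg_snd, norm_neg]
      exact this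
    -- |m| ≥ 2
    have hm : (2 : ℝ) ≤ |(m : ℝ)| := by
      have : (2 : ℤ) ≤ |m| := by
        rcases le_total 0 m with h0 | h0
        · rw [abs_of_nonneg h0]; omega
        · rw [abs_of_nonpos h0]; omega
      exact_mod_cast this
    have e3 : 2 ≤ ‖(y + m • g₁).fst‖ := by
      have h1 := norm_split (y + m • g₁).fst k
      rw [hcoord y hy m, abs_mul, abs_of_nonneg (by linarith : (0:ℝ) ≤ t)] at h1
      have h2 := norm_nonneg ((y + m • g₁).fst - lp.single 1 k ((m : ℝ) * t))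
      nlinarith
    have e4 : ‖(y + m • g₁).fst‖ ≤ ‖y + m • g₁‖ := by
      have := nsq (y + m • g₁)
      exact abs_le_of_sq_le_sq' (by nlinarith [sq_nonneg ‖(y + m • g₁).snd‖]) (norm_nonneg _) |>.2
    have e5 := rho_le
    exact ⟨by linarith, by linarith, Or.inl (by linarith)⟩
  · intro u hu v hv w hw huv huw hvw
    obtain ⟨y1, hy1, w1, hw1, rfl⟩ := AddSubgroup.mem_sup.1 hu
    obtain ⟨m1, rfl⟩ := AddSubgroup.mem_zmultiples_iff.1 hw1
    obtain ⟨y2, hy2, w2, hw2, rfl⟩ := AddSubgroup.mem_sup.1 hv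
    obtain ⟨m2, rfl⟩ := AddSubgroup.mem_zmultiples_iff.1 hw2
    obtain ⟨y3, hy3, w3, hw3, rfl⟩ := AddSubgroup.mem_sup.1 hw
    obtain ⟨m3, rfl⟩ := AddSubgroup.mem_zmultiples_iff.1 hw3
    by_cases hm : m1 = m2 ∧ m2 = m3
    · obtain ⟨rfl, rfl⟩ := hm
      have h5 := hI.2 y1 hy1 y2 hy2 y3 hy3 (fun e => huv (by rw [e])) (fun e => huw (by rw [e]))
        (fun e => hvw (by rw [e]))
      unfold Tri at h5 ⊢
      simp only [WithLp.add_fst, add_sub_add_right_eq_sub]
      exact h5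
    · exact tri_of_coord _ _ _ k t ht m1 m2 m3 (hcoord y1 hy1 m1) (hcoord y2 hy2 m2)
        (hcoord y3 hy3 m3) hm

end

section

variable {Y : Type*} [NormedAddCommGroup Y] [InnerProductSpace ℝ Y]

/-- One step of the construction. -/
lemma step_inner (k : ℕ) (G : AddSubgroup (WithLp 2 (L1 × Y))) (hI : Inv G) (hG : G ≤ Vk Y k)
    (x : WithLp 2 (L1 × Y)) (hx : x ∈ Vk Y k) :
    ∃ G' : AddSubgroup (WithLp 2 (L1 × Y)), G ≤ G' ∧ Inv G' ∧ G' ≤ Vk Y (k + 1) ∧
      ∃ y ∈ G', ‖x - y‖ ≤ 2 / √3 := by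
  by_cases hc : ∃ y ∈ G, ‖x - y‖ ≤ 2 / √3
  · exact ⟨G, le_rfl, hI, hG.trans (Vk_mono (by omega)), hc⟩
  push Not at hc
  have hρ2 : (2 / √3 : ℝ) ^ 2 = 4 / 3 := rho_sq
  have hρ1 : 1 ≤ (2 / √3 : ℝ) := one_le_rho
  obtain ⟨t, b, ht1, htb, hall⟩ := Pool.Agent.K4H44.PCW.choose_w (2 / √3) hρ2 (by linarith)
    (ι := G) (fun y => ‖x.fst - y.1.fst‖) (fun y => x.snd - y.1.snd)
    (fun y z => ‖y.1.fst - z.1.fst‖) (fun y => norm_nonneg _)
    (by
      intro y
      have h1 := pow_lt_pow_left₀ (hc y.1 y.2) (by linarith) (n := 2) (by norm_num)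
      rw [hρ2, nsq, WithLp.sub_fst, WithLp.sub_snd] at h1
      exact h1.le)
    (by
      intro y z
      have := norm_sub_le (x.fst - z.1.fst) (x.fst - y.1.fst)
      rw [sub_sub_sub_cancel_left] at this
      linarith)
    (by
      intro y z hyz
      have := (hI.1 (y.1 - z.1) (sub_mem y.2 z.2) (sub_ne_zero.2 (fun e => hyz (Subtype.ext e)))).2.1
      rwa [WithLp.sub_fst] at this)
    (by
      intro y z hyz
      have := (hI.1 (y.1 - z.1) (sub_mem y.2 z.2) (sub_ne_zero.2 (fun e => hyz (Subtype.ext e)))).2.2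
      rw [WithLp.sub_fst, WithLp.sub_snd] at this
      rw [sub_sub_sub_cancel_left, norm_sub_rev z.1.snd y.1.snd]
      exact this)
    (by
      intro u v w h1 h2 h3
      exact hI.2 u.1 u.2 v.1 v.2 w.1 w.2 (fun e => h1 (Subtype.ext e))
        (fun e => h2 (Subtype.ext e)) (fun e => h3 (Subtype.ext e)))
  set g : WithLp 2 (L1 × Y) := toLp 2 (x.fst + lp.single 1 k t, x.snd + b) with hg
  have key : ∀ y ∈ G, 2 ≤ ‖g - y‖ ∧ 1 ≤ ‖(g - y).fst‖ ∧
      (2 / √3 ≤ ‖(g - y).fst‖ ∨ ‖(g - y).snd‖ ^ 2 ≤ 3) := by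
    intro y hy
    obtain ⟨h4, h5⟩ := hall ⟨y, hy⟩
    simp only at h4 h5
    have hfst : ‖(g - y).fst‖ = ‖x.fst - y.fst‖ + t := by
      have e : (g - y).fst = (x.fst - y.fst) + lp.single 1 k t := by
        rw [WithLp.sub_fst, hg]; simp only [WithLp.toLp_fst]; abel
      rw [e, norm_add_single _ _ _ (by
        rw [lp.coeFn_sub, Pi.sub_apply, hx k le_rfl, hG hy k le_rfl, sub_zero]),
        abs_of_nonneg (by linarith)]
    have hsnd : (g - y).snd = x.snd - y.snd + b := by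
      rw [WithLp.sub_snd, hg]; simp only [WithLp.toLp_snd]; abel
    refine ⟨?_, ?_, ?_⟩
    · have h6 : (2:ℝ) ^ 2 ≤ ‖g - y‖ ^ 2 := by
        rw [nsq, hfst, hsnd]; linarith
      exact (pow_le_pow_iff_left₀ (by norm_num) (norm_nonneg _) (by norm_num)).1 h6
    · rw [hfst]; linarith [norm_nonneg (x.fst - y.fst)]
    · rw [hfst, hsnd]; exact h5
  obtain ⟨hA, hB⟩ := add_gen' k G hG hI t ht1 x.fst hx (x.snd + b) key
  refine ⟨_, le_sup_left, hA, hB, g,
    (le_sup_right : AddSubgroup.zmultiples g ≤ _) (AddSubgroup.mem_zmultiples g), ?_⟩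
  have e : ‖x - g‖ ^ 2 = (2 / √3) ^ 2 := by
    rw [nsq]
    have e1 : (x - g).fst = - lp.single 1 k t := by
      rw [WithLp.sub_fst, hg]; simp only [WithLp.toLp_fst]; abel
    have e2 : (x - g).snd = - b := by
      rw [WithLp.sub_snd, hg]; simp only [WithLp.toLp_snd]; abel
    rw [e1, e2, norm_neg, norm_neg, lp.norm_single (by norm_num), Real.norm_of_nonneg (by linarith),
      htb, hρ2]
  exact ((pow_left_inj₀ (norm_nonneg _) (by linarith) (by norm_num)).1 e).le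

theorem upper_inner [TopologicalSpace.SeparableSpace Y] : ∃ D : AddSubgroup (WithLp 2 (L1 × Y)),
    Separated (D : Set (WithLp 2 (L1 × Y))) ∧
      ∀ ε > 0, DenseAt (2 / √3 + ε) (D : Set (WithLp 2 (L1 × Y))) := by
  apply recursion (2 / √3) Inv ⊥
  · refine ⟨?_, ?_⟩
    · intro g hg hg0
      exact absurd (AddSubgroup.mem_bot.1 hg) hg0
    · intro u hu v hv w _ huv
      exact absurd ((AddSubgroup.mem_bot.1 hu).trans (AddSubgroup.mem_bot.1 hv).symm) huv
  · exact bot_le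
  · intro G hG g hg hg0; exact (hG.1 g hg hg0).1
  · intro k G hG hGV x hx
    exact step_inner k G hG hGV x hx

end

/-- **Main theorem (full answer to Q2).** `γ(ℓ₁ ⊕₂ ℓ₂) = γ*(ℓ₁ ⊕₂ ℓ₂) = 2/√3`, and more generally
`γ(ℓ₁ ⊕₂ Y) = γ*(ℓ₁ ⊕₂ Y) = 2/√3` for every separable real inner product space `Y ≠ 0`. -/
theorem result :
    (gamma (WithLp 2 (L1 × L2)) = 2 / √3 ∧ gammaStar (WithLp 2 (L1 × L2)) = 2 / √3) ∧
    ∀ (Y : Type) [NormedAddCommGroup Y] [InnerProductSpace ℝ Y] [Nontrivial Y]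
      [TopologicalSpace.SeparableSpace Y],
      gamma (WithLp 2 (L1 × Y)) = 2 / √3 ∧ gammaStar (WithLp 2 (L1 × Y)) = 2 / √3 := by
  have main : ∀ (Y : Type) [NormedAddCommGroup Y] [InnerProductSpace ℝ Y] [Nontrivial Y]
      [TopologicalSpace.SeparableSpace Y],
      gamma (WithLp 2 (L1 × Y)) = 2 / √3 ∧ gammaStar (WithLp 2 (L1 × Y)) = 2 / √3 := by
    intro Y _ _ _ _
    have hA := gamma_le_star (2 / √3) (upper_inner (Y := Y))
    have hB := gammaStar_le (2 / √3) (upper_inner (Y := Y))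
    have hC := le_gamma (2 / √3) (2 / √3) (upper_inner (Y := Y)) (fun D ρ => lower (Y := Y) D ρ)
    exact ⟨le_antisymm (hA.trans hB) hC, le_antisymm hB (hC.trans hA)⟩
  exact ⟨main L2, main⟩

end Pool.Agent.Results.MP_d84bc5_an.HilbertSummand
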